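import Pool.Agent.helper36.HK.Spec

/-!
# MP_ad8ced_nt, row fi:TV2: the variation in two dimensions
-/

set_option autoImplicit false

open Finset
open Pool.Agent.FI

noncomputable section

namespace Pool.Agent.HK

theorem TV2_sum (S : Finset ℤ) (R : ℕ) (M : ℝ) (hM : 0 ≤ M) :
    ∑ l ∈ S, (if |l| ≤ (R : ℤ) then M else 0) ≤ (2 * R + 1) * M := by
  rw [← Finset.sum_filter, Finset.sum_const, nsmul_eq_mul]
  refine mul_le_mul_of_nonneg_right ?_ hM
  have h1 : S.filter (fun l => |l| ≤ (R : ℤ)) ⊆ Icc (-(R : ℤ)) R := by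
    intro l hl
    have h2 := abs_le.1 (Finset.mem_filter.1 hl).2
    exact Finset.mem_Icc.2 h2
  have h2 := Finset.card_le_card h1
  rw [Int.card_Icc] at h2
  have h3 : ((R : ℤ) + 1 - -(R : ℤ)).toNat = 2 * R + 1 := by omega
  rw [h3] at h2
  exact_mod_cast h2

theorem TV2 (hTVL : TVL_stmt) : TV2_stmt := by
  classical
  intro P g κ K s R B hs hK hgK hPR hc1 hc2 hm1 hm2
  have hM : 0 ≤ 2 + 2 * K * |κ| := by positivity
  set F : ℤ × ℤ → ℂ := fun z => if P z then s * Complex.exp (κ * g z * Complex.I) else 0 with hF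
  have hrow : ∀ (l : ℤ) (S : Finset ℤ), ∑ t ∈ S, ‖F (t + 1, l) - F (t, l)‖ ≤
      if |l| ≤ (R : ℤ) then 2 + 2 * K * |κ| else 0 := by
    intro l S
    split_ifs with h
    · have := hTVL (fun t => P (t, l)) (fun t => g (t, l)) κ K s hs hK (fun t ht => hgK _ ht)
        (fun a b c => hc1 l a b c) (hm1 l) S
      rw [hF]
      exact this
    · have h0 : ∀ t, F (t, l) = 0 := fun t => if_neg fun hP => h (hPR _ hP).2
      refine (Finset.sum_eq_zero fun t _ => ?_).le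
      rw [h0, h0, sub_zero, norm_zero]
  have hcol : ∀ (l : ℤ) (S : Finset ℤ), ∑ t ∈ S, ‖F (l, t + 1) - F (l, t)‖ ≤
      if |l| ≤ (R : ℤ) then 2 + 2 * K * |κ| else 0 := by
    intro l S
    split_ifs with h
    · have := hTVL (fun t => P (l, t)) (fun t => g (l, t)) κ K s hs hK (fun t ht => hgK _ ht)
        (fun a b c => hc2 l a b c) (hm2 l) S
      rw [hF]
      exact this
    · have h0 : ∀ t, F (l, t) = 0 := fun t => if_neg fun hP => h (hPR _ hP).1
      refine (Finset.sum_eq_zero fun t _ => ?_).le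
      rw [h0, h0, sub_zero, norm_zero]
  have h1 : ∑ z ∈ Bx (B + 1), ‖F (z.1 + 1, z.2) - F z‖ ≤ (2 * R + 1) * (2 + 2 * K * |κ|) := by
    unfold Bx
    rw [Finset.sum_product_right]
    exact (Finset.sum_le_sum fun l _ => hrow l _).trans (TV2_sum _ R _ hM)
  have h2 : ∑ z ∈ Bx (B + 1), ‖F (z.1, z.2 + 1) - F z‖ ≤ (2 * R + 1) * (2 + 2 * K * |κ|) := by
    unfold Bx
    rw [Finset.sum_product]
    exact (Finset.sum_le_sum fun l _ => hcol l _).trans (TV2_sum _ R _ hM)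
  have h3 : Va F B = ∑ z ∈ Bx (B + 1), ‖F (z.1 + 1, z.2) - F z‖ +
      ∑ z ∈ Bx (B + 1), ‖F (z.1, z.2 + 1) - F z‖ := by
    unfold Va
    rw [Finset.sum_add_distrib]
  have h4 : Va F B ≤ 2 * (2 * R + 1) * (2 + 2 * K * |κ|) := by
    rw [h3]
    linarith
  exact h4

end Pool.Agent.HK
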