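import Pool.Agent.helper62.K3.Defs

/-! Project HK (MP_90cd86_gt), module P1: linear algebra of the space `KK`. -/

set_option autoImplicit false

noncomputable section

namespace Pool.Agent.helper62.K3

/-- the moments of `y` -/
def P1_e (y : Fin 6 → ℂ) (m : ℕ) : ℂ := ∑ i : Fin 6, ((i : ℕ) : ℂ) ^ m * y i

lemma P1_mem (y : Fin 6 → ℂ) : y ∈ KK ↔ P1_e y 0 = 0 ∧ P1_e y 1 = 0 ∧ P1_e y 2 = 0 := by
  constructor
  · intro h
    exact ⟨h 0, h 1, h 2⟩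
  · rintro ⟨h0, h1, h2⟩ m
    fin_cases m
    · exact h0
    · exact h1
    · exact h2

lemma P1_q (y : Fin 6 → ℂ) (k l : ℂ) :
    ∑ i : Fin 6, (((i : ℕ) : ℂ) - k) * (((i : ℕ) : ℂ) - l) * y i =
      P1_e y 2 - (k + l) * P1_e y 1 + k * l * P1_e y 0 := by
  unfold P1_e
  rw [Finset.mul_sum, Finset.mul_sum, ← Finset.sum_sub_distrib, ← Finset.sum_add_distrib]
  refine Finset.sum_congr rfl fun i _ => ?_
  ring

lemma P1_cast_ne {j k : Fin 6} (h : j ≠ k) : (((j : ℕ) : ℂ) - ((k : ℕ) : ℂ)) ≠ 0 := by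
  intro h0
  apply h
  have h1 : ((j : ℕ) : ℂ) = ((k : ℕ) : ℂ) := sub_eq_zero.1 h0
  exact Fin.ext (by exact_mod_cast h1)

lemma P1_split (A : Finset (Fin 6)) (j k l : Fin 6) (hjk : j ≠ k) (hjl : j ≠ l)
    (hkl : k ≠ l) (hA : Finset.univ \ A = {j, k, l}) (y : Fin 6 → ℂ) :
    ∑ i : Fin 6, (((i : ℕ) : ℂ) - ((k : ℕ) : ℂ)) * (((i : ℕ) : ℂ) - ((l : ℕ) : ℂ)) * y i =
      (∑ s ∈ A, (((s : ℕ) : ℂ) - ((k : ℕ) : ℂ)) * (((s : ℕ) : ℂ) - ((l : ℕ) : ℂ)) * y s) +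
        (((j : ℕ) : ℂ) - ((k : ℕ) : ℂ)) * (((j : ℕ) : ℂ) - ((l : ℕ) : ℂ)) * y j := by
  rw [← Finset.sum_sdiff (Finset.subset_univ A), hA, Finset.sum_insert (by simp [hjk, hjl]),
    Finset.sum_insert (by simp [hkl]), Finset.sum_singleton]
  ring

lemma P1_Lc (A : Finset (Fin 6)) (j k l : Fin 6) (hjk : j ≠ k) (hjl : j ≠ l)
    (hkl : k ≠ l) (hA : Finset.univ \ A = {j, k, l}) (s : Fin 6) :
    Lc A j s = -((((s : ℕ) : ℂ) - ((k : ℕ) : ℂ)) * (((s : ℕ) : ℂ) - ((l : ℕ) : ℂ)) /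
      ((((j : ℕ) : ℂ) - ((k : ℕ) : ℂ)) * (((j : ℕ) : ℂ) - ((l : ℕ) : ℂ)))) := by
  unfold Lc
  have h1 : (Finset.univ \ A).erase j = {k, l} := by
    rw [hA, Finset.erase_insert (by simp [hjk, hjl])]
  rw [h1, Finset.prod_pair hkl, div_mul_div_comm]

/-- the equation for `j` -/
lemma P1_iff (A : Finset (Fin 6)) (j k l : Fin 6) (hjk : j ≠ k) (hjl : j ≠ l)
    (hkl : k ≠ l) (hA : Finset.univ \ A = {j, k, l}) (y : Fin 6 → ℂ) :
    y j = ∑ s ∈ A, Lc A j s * y s ↔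
      P1_e y 2 - (((k : ℕ) : ℂ) + ((l : ℕ) : ℂ)) * P1_e y 1 +
        ((k : ℕ) : ℂ) * ((l : ℕ) : ℂ) * P1_e y 0 = 0 := by
  rw [← P1_q, P1_split A j k l hjk hjl hkl hA]
  have hD : (((j : ℕ) : ℂ) - ((k : ℕ) : ℂ)) * (((j : ℕ) : ℂ) - ((l : ℕ) : ℂ)) ≠ 0 :=
    mul_ne_zero (P1_cast_ne hjk) (P1_cast_ne hjl)
  set D := (((j : ℕ) : ℂ) - ((k : ℕ) : ℂ)) * (((j : ℕ) : ℂ) - ((l : ℕ) : ℂ)) with hDdef
  have h1 : ∑ s ∈ A, Lc A j s * y s =
      -(∑ s ∈ A, (((s : ℕ) : ℂ) - ((k : ℕ) : ℂ)) * (((s : ℕ) : ℂ) - ((l : ℕ) : ℂ)) * y s) / D := by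
    rw [neg_div, Finset.sum_div, ← Finset.sum_neg_distrib]
    refine Finset.sum_congr rfl fun s _ => ?_
    rw [P1_Lc A j k l hjk hjl hkl hA]
    ring
  rw [h1, eq_div_iff hD]
  constructor
  · intro h
    rw [mul_comm D, h]
    ring
  · intro h
    linear_combination h

/-- hk:P1 -/
theorem P1 (A : Finset (Fin 6)) (hA : A.card = 3) (y : Fin 6 → ℂ) :
    y ∈ KK ↔ ∀ j, j ∉ A → y j = ∑ s ∈ A, Lc A j s * y s := by
  have hB : (Finset.univ \ A).card = 3 := by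
    rw [Finset.card_sdiff_of_subset (Finset.subset_univ A), hA]
    rfl
  obtain ⟨j, k, l, hjk, hjl, hkl, hS⟩ := Finset.card_eq_three.1 hB
  have hS2 : Finset.univ \ A = {k, j, l} := by
    rw [hS]; ext x; simp; tauto
  have hS3 : Finset.univ \ A = {l, j, k} := by
    rw [hS]; ext x; simp; tauto
  have e1 := P1_iff A j k l hjk hjl hkl hS y
  have e2 := P1_iff A k j l hjk.symm hkl hjl hS2 y
  have e3 := P1_iff A l j k hjl.symm hkl.symm hjk hS3 y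
  have hall : (∀ j, j ∉ A → y j = ∑ s ∈ A, Lc A j s * y s) ↔
      (y j = ∑ s ∈ A, Lc A j s * y s) ∧ (y k = ∑ s ∈ A, Lc A k s * y s) ∧
        (y l = ∑ s ∈ A, Lc A l s * y s) := by
    have hm : ∀ x, x ∉ A ↔ x = j ∨ x = k ∨ x = l := by
      intro x
      have : x ∈ Finset.univ \ A ↔ x ∈ ({j, k, l} : Finset (Fin 6)) := by rw [hS]
      simpa using this
    constructor
    · intro h
      exact ⟨h j ((hm j).2 (by simp)), h k ((hm k).2 (by simp)), h l ((hm l).2 (by simp))⟩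
    · rintro ⟨h1, h2, h3⟩ x hx
      rcases (hm x).1 hx with rfl | rfl | rfl
      · exact h1
      · exact h2
      · exact h3
  rw [hall, e1, e2, e3, P1_mem]
  constructor
  · rintro ⟨h0, h1, h2⟩
    rw [h0, h1, h2]
    simp
  · rintro ⟨h1, h2, h3⟩
    have a1 : (((j : ℕ) : ℂ) - ((k : ℕ) : ℂ)) * (P1_e y 1 - ((l : ℕ) : ℂ) * P1_e y 0) = 0 := by
      linear_combination h1 - h2
    have a2 : (((k : ℕ) : ℂ) - ((l : ℕ) : ℂ)) * (P1_e y 1 - ((j : ℕ) : ℂ) * P1_e y 0) = 0 := by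
      linear_combination h2 - h3
    have b1 := (mul_eq_zero.1 a1).resolve_left (P1_cast_ne hjk)
    have b2 := (mul_eq_zero.1 a2).resolve_left (P1_cast_ne hkl)
    have c1 : (((j : ℕ) : ℂ) - ((l : ℕ) : ℂ)) * P1_e y 0 = 0 := by linear_combination b1 - b2
    have d0 := (mul_eq_zero.1 c1).resolve_left (P1_cast_ne hjl)
    rw [d0, mul_zero, sub_zero] at b1
    rw [d0, b1] at h1
    simp only [mul_zero, sub_zero, add_zero] at h1
    exact ⟨d0, b1, h1⟩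

/-- hk:P1 -/
theorem P1_zero (a b c : Fin 6) (hab : a ≠ b) (hac : a ≠ c) (hbc : b ≠ c) (y : Fin 6 → ℂ)
    (hy : y ∈ KK) (h1 : y a = 0) (h2 : y b = 0) (h3 : y c = 0) : y = 0 := by
  have hA : ({a, b, c} : Finset (Fin 6)).card = 3 := Finset.card_eq_three.2 ⟨a, b, c, hab, hac, hbc, rfl⟩
  have h := (P1 {a, b, c} hA y).1 hy
  have hz : ∀ s ∈ ({a, b, c} : Finset (Fin 6)), y s = 0 := by
    intro s hs
    simp only [Finset.mem_insert, Finset.mem_singleton] at hs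
    rcases hs with rfl | rfl | rfl <;> assumption
  funext j
  by_cases hj : j ∈ ({a, b, c} : Finset (Fin 6))
  · exact hz j hj
  · rw [h j hj]
    exact Finset.sum_eq_zero fun s hs => by rw [hz s hs, mul_zero]

end Pool.Agent.helper62.K3
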