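import Pool.Agent.helper62.K3.Defs
import Pool.Agent.helper46.HK.P1

/-! Project HK (MP_90cd86_gt), module P2: topology and coordinates of `X0`. -/

set_option autoImplicit false

noncomputable section

namespace Pool.Agent.helper62.K3

lemma P2_norm_sq (z : ℂ) : z * (starRingEnd ℂ) z = ((‖z‖ ^ 2 : ℝ) : ℂ) := by
  rw [Complex.mul_conj, Complex.normSq_eq_norm_sq]

lemma P2_isCompact : IsCompact {T : Fin 6 → Fin 6 → ℂ |
    ∃ x ∈ Cone, ∑ i, ‖x i‖ ^ 2 = 1 ∧ ∀ i j, T i j = x i * (starRingEnd ℂ) (x j)} := by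
  have h1 : {T : Fin 6 → Fin 6 → ℂ |
      ∃ x ∈ Cone, ∑ i, ‖x i‖ ^ 2 = 1 ∧ ∀ i j, T i j = x i * (starRingEnd ℂ) (x j)} =
      (fun x : Fin 6 → ℂ => fun i j => x i * (starRingEnd ℂ) (x j)) ''
        {x | (∑ i, ‖x i‖ ^ 2 = 1) ∧
          ∀ m : Fin 3, ∑ i : Fin 6, ((i : ℕ) : ℂ) ^ (m : ℕ) * x i ^ 2 = 0} := by
    ext T
    constructor
    · rintro ⟨x, hx, h1, h2⟩
      exact ⟨x, ⟨h1, hx.2⟩, by funext i j; exact (h2 i j).symm⟩
    · rintro ⟨x, ⟨h1, h2⟩, rfl⟩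
      refine ⟨x, ⟨?_, h2⟩, h1, fun i j => rfl⟩
      rintro rfl
      simp at h1
  rw [h1]
  apply IsCompact.image
  · apply Metric.isCompact_of_isClosed_isBounded
    · apply IsClosed.inter
      · exact isClosed_eq (by fun_prop) continuous_const
      · have : {x : Fin 6 → ℂ | ∀ m : Fin 3, ∑ i : Fin 6, ((i : ℕ) : ℂ) ^ (m : ℕ) * x i ^ 2 = 0} =
            ⋂ m : Fin 3, {x | ∑ i : Fin 6, ((i : ℕ) : ℂ) ^ (m : ℕ) * x i ^ 2 = 0} := by
          ext x; simp
        show IsClosed {x : Fin 6 → ℂ | ∀ m : Fin 3,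
          ∑ i : Fin 6, ((i : ℕ) : ℂ) ^ (m : ℕ) * x i ^ 2 = 0}
        rw [this]
        exact isClosed_iInter fun m => isClosed_eq (by fun_prop) continuous_const
    · rw [isBounded_iff_forall_norm_le]
      refine ⟨1, ?_⟩
      rintro x ⟨hx, -⟩
      rw [pi_norm_le_iff_of_nonneg zero_le_one]
      intro i
      have h2 : ‖x i‖ ^ 2 ≤ 1 := by
        have hx' : ∑ i, ‖x i‖ ^ 2 = 1 := hx
        rw [← hx']
        exact Finset.single_le_sum (f := fun i => ‖x i‖ ^ 2) (fun i _ => by positivity)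
          (Finset.mem_univ i)
      nlinarith [norm_nonneg (x i)]
  · refine continuous_pi fun i => continuous_pi fun j => ?_
    exact (continuous_apply i).mul (Complex.continuous_conj.comp (continuous_apply j))

/-- hk:P2 -/
theorem P2_compact : CompactSpace X0 := isCompact_iff_compactSpace.1 P2_isCompact

/-- hk:P2 -/
theorem P2_t2 : T2Space X0 := by
  unfold X0
  infer_instance

lemma P2_cont (i j : Fin 6) : Continuous (fun T : X0 => T.1 i j) :=
  (continuous_apply j).comp ((continuous_apply i).comp continuous_subtype_val)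

/-- hk:P2 -/
theorem P2_zc (a i : Fin 6) : ContinuousOn (zc a i) {T | T.1 a a ≠ 0} :=
  ContinuousOn.div (P2_cont i a).continuousOn (P2_cont a a).continuousOn (fun _ hT => hT)

/-- the coordinates in terms of a unit vector -/
lemma P2_vec (T : X0) : ∃ x ∈ Cone, ∑ i, ‖x i‖ ^ 2 = 1 ∧
    (∀ i j, T.1 i j = x i * (starRingEnd ℂ) (x j)) ∧ (∀ i, T.1 i i = 0 ↔ x i = 0) ∧
    ∀ a, T.1 a a ≠ 0 → ∀ i, zc a i T = x i / x a := by
  obtain ⟨x, hx, h1, h2⟩ := T.2
  have h3 : ∀ i, T.1 i i = 0 ↔ x i = 0 := by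
    intro i
    rw [h2 i i, mul_eq_zero, map_eq_zero, or_self]
  refine ⟨x, hx, h1, h2, h3, ?_⟩
  intro a ha i
  have ha' : x a ≠ 0 := fun h => ha ((h3 a).2 h)
  have ha2 : (starRingEnd ℂ) (x a) ≠ 0 := by
    rw [Ne, map_eq_zero]; exact ha'
  unfold zc
  rw [h2 i a, h2 a a, mul_div_mul_right _ _ ha2]

/-- hk:P2 coordinates of points of `X0` -/
theorem P2_rel (a : Fin 6) (T : X0) (hT : T.1 a a ≠ 0) :
    zc a a T = 1 ∧ (fun i => zc a i T ^ 2) ∈ KK ∧
    (∀ i j, T.1 i j = zc a i T * (starRingEnd ℂ) (zc a j T) / ((∑ k, ‖zc a k T‖ ^ 2 : ℝ) : ℂ)) ∧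
    (∀ i, T.1 i i = 0 ↔ zc a i T = 0) ∧
    (∀ b, T.1 b b ≠ 0 → ∀ i, zc b i T = zc a i T / zc a b T) := by
  obtain ⟨x, hx, h1, h2, h3, h4⟩ := P2_vec T
  have ha : x a ≠ 0 := fun h => hT ((h3 a).2 h)
  refine ⟨?_, ?_, ?_, ?_, ?_⟩
  · unfold zc
    exact div_self hT
  · intro m
    have e : ∀ i : Fin 6, ((i : ℕ) : ℂ) ^ (m : ℕ) * (fun i => zc a i T ^ 2) i =
        (((i : ℕ) : ℂ) ^ (m : ℕ) * x i ^ 2) / (x a) ^ 2 := by
      intro i
      show ((i : ℕ) : ℂ) ^ (m : ℕ) * zc a i T ^ 2 = _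
      rw [h4 a hT i, div_pow, mul_div_assoc]
    rw [Finset.sum_congr rfl (fun i _ => e i), ← Finset.sum_div, hx.2 m, zero_div]
  · intro i j
    have e1 : (∑ k, ‖zc a k T‖ ^ 2 : ℝ) = 1 / ‖x a‖ ^ 2 := by
      have : ∀ k, ‖zc a k T‖ ^ 2 = ‖x k‖ ^ 2 / ‖x a‖ ^ 2 := by
        intro k
        rw [h4 a hT k, norm_div, div_pow]
      rw [Finset.sum_congr rfl (fun k _ => this k), ← Finset.sum_div, h1]
    have e2 : ((‖x a‖ ^ 2 : ℝ) : ℂ) = x a * (starRingEnd ℂ) (x a) := (P2_norm_sq _).symm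
    have ha2 : (starRingEnd ℂ) (x a) ≠ 0 := by
      rw [Ne, map_eq_zero]; exact ha
    rw [e1, h4 a hT i, h4 a hT j, h2 i j, map_div₀, Complex.ofReal_div, Complex.ofReal_one, e2]
    field_simp
  · intro i
    rw [h3 i, h4 a hT i, div_eq_zero_iff]
    exact ⟨fun h => Or.inl h, fun h => h.resolve_right ha⟩
  · intro b hb i
    have hb' : x b ≠ 0 := fun h => hb ((h3 b).2 h)
    rw [h4 b hb i, h4 a hT i, h4 a hT b]
    field_simp

/-- hk:P2 construction of points of `X0` -/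
theorem P2_mk (x : Fin 6 → ℂ) (hx : x ∈ Cone) :
    ∃ T : X0, (∀ i j, T.1 i j = x i * (starRingEnd ℂ) (x j) / ((∑ k, ‖x k‖ ^ 2 : ℝ) : ℂ)) ∧
      ∀ a, x a ≠ 0 → T.1 a a ≠ 0 ∧ ∀ i, zc a i T = x i / x a := by
  have hS : 0 < ∑ k, ‖x k‖ ^ 2 := by
    have : ∃ i, x i ≠ 0 := by
      by_contra h
      push Not at h
      exact hx.1 (funext h)
    obtain ⟨i, hi⟩ := this
    exact Finset.sum_pos' (fun k _ => by positivity) ⟨i, Finset.mem_univ i, by positivity⟩
  set S : ℝ := ∑ k, ‖x k‖ ^ 2 with hSdef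
  set r : ℝ := √S with hr
  have hr0 : 0 < r := Real.sqrt_pos.2 hS
  have hr2 : r * r = S := Real.mul_self_sqrt hS.le
  have hrc : (r : ℂ) ≠ 0 := by exact_mod_cast hr0.ne'
  let y : Fin 6 → ℂ := fun i => x i / r
  have hy : y ∈ Cone := by
    constructor
    · intro h
      apply hx.1
      funext i
      have := congrFun h i
      have h2 : x i / r = 0 := this
      rcases div_eq_zero_iff.1 h2 with h3 | h3
      · exact h3
      · exact absurd h3 hrc
    · intro m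
      have e : ∀ i : Fin 6, ((i : ℕ) : ℂ) ^ (m : ℕ) * y i ^ 2 =
          (((i : ℕ) : ℂ) ^ (m : ℕ) * x i ^ 2) / (r : ℂ) ^ 2 := by
        intro i
        show ((i : ℕ) : ℂ) ^ (m : ℕ) * (x i / r) ^ 2 = _
        rw [div_pow, mul_div_assoc]
      rw [Finset.sum_congr rfl (fun i _ => e i), ← Finset.sum_div, hx.2 m, zero_div]
  have hy1 : ∑ i, ‖y i‖ ^ 2 = 1 := by
    have : ∀ k, ‖y k‖ ^ 2 = ‖x k‖ ^ 2 / S := by
      intro k
      show ‖x k / r‖ ^ 2 = _
      rw [norm_div, div_pow, Complex.norm_real, Real.norm_eq_abs, sq_abs, sq r, hr2]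
    rw [Finset.sum_congr rfl (fun k _ => this k), ← Finset.sum_div, div_self hS.ne']
  have hyij : ∀ i j, y i * (starRingEnd ℂ) (y j) = x i * (starRingEnd ℂ) (x j) / (S : ℂ) := by
    intro i j
    show x i / r * (starRingEnd ℂ) (x j / r) = _
    rw [map_div₀, Complex.conj_ofReal, div_mul_div_comm]
    congr 1
    exact_mod_cast hr2
  refine ⟨⟨fun i j => y i * (starRingEnd ℂ) (y j), y, hy, hy1, fun i j => rfl⟩, hyij, ?_⟩
  intro a ha
  have hSc : (S : ℂ) ≠ 0 := by exact_mod_cast hS.ne'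
  have ha2 : (starRingEnd ℂ) (x a) ≠ 0 := by
    rw [Ne, map_eq_zero]; exact ha
  constructor
  · show y a * (starRingEnd ℂ) (y a) ≠ 0
    rw [hyij]
    exact div_ne_zero (mul_ne_zero ha ha2) hSc
  · intro i
    show (y i * (starRingEnd ℂ) (y a)) / (y a * (starRingEnd ℂ) (y a)) = _
    rw [hyij, hyij]
    field_simp

/-- hk:P2 the charts cover `X0` -/
theorem P2_cover (T : X0) : ∃ a b c, a ≠ b ∧ a ≠ c ∧ b ≠ c ∧ T ∈ Och a b c := by
  classical
  obtain ⟨x, hx, h1, h2, h3, h4⟩ := P2_vec T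
  let Z : Finset (Fin 6) := Finset.univ.filter (fun i => x i = 0)
  have hZ : Z.card ≤ 2 := by
    by_contra hcon
    push Not at hcon
    obtain ⟨t, htZ, ht3⟩ := Finset.exists_subset_card_eq (s := Z) (n := 3) (by omega)
    obtain ⟨a, b, c, hab, hac, hbc, rfl⟩ := Finset.card_eq_three.1 ht3
    have hz : ∀ s ∈ ({a, b, c} : Finset (Fin 6)), x s = 0 := fun s hs =>
      (Finset.mem_filter.1 (htZ hs)).2
    have hKK : (fun i => x i ^ 2) ∈ KK := fun m => hx.2 m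
    have hzero := P1_zero a b c hab hac hbc (fun i => x i ^ 2) hKK
      (by simp [hz a (by simp)]) (by simp [hz b (by simp)]) (by simp [hz c (by simp)])
    apply hx.1
    funext i
    have := congrFun hzero i
    have h5 : x i ^ 2 = 0 := this
    exact pow_eq_zero_iff (by norm_num) |>.1 h5
  obtain ⟨S, hZS, hS2⟩ := Finset.exists_superset_card_eq (s := Z) (n := 2) hZ (by simp)
  obtain ⟨b, c, hbc, rfl⟩ := Finset.card_eq_two.1 hS2
  obtain ⟨a, ha⟩ : ∃ a, a ∉ ({b, c} : Finset (Fin 6)) := by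
    by_contra hcon
    push Not at hcon
    have : (Finset.univ : Finset (Fin 6)).card ≤ ({b, c} : Finset (Fin 6)).card :=
      Finset.card_le_card fun i _ => hcon i
    rw [hS2] at this
    simp at this
  have hnz : ∀ i, i ∉ ({b, c} : Finset (Fin 6)) → T.1 i i ≠ 0 := by
    intro i hi h
    apply hi
    apply hZS
    exact Finset.mem_filter.2 ⟨Finset.mem_univ i, (h3 i).1 h⟩
  simp only [Finset.mem_insert, Finset.mem_singleton, not_or] at ha
  refine ⟨a, b, c, ha.1, ha.2, hbc, hnz a (by simp [ha.1, ha.2]), ?_⟩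
  intro j _ hjb hjc
  exact hnz j (by simp [hjb, hjc])

end Pool.Agent.helper62.K3
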